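import Mathlib
import Pool.Agent.Lib.MP_8ec070_an.LH.Main

set_option autoImplicit false

namespace Pool.Agent.Retired.MP_8ec070_an.LargeHolds

/-- For every `ε > 1 / 4` and every `δ` with `0 ≤ δ < 2 ε` the weighted inequality for the
Bochner-Riesz operator `S^ε` and the maximal function `M_δ` holds with a finite constant. -/
theorem result : ∀ ε δ : ℝ, 1 / 4 < ε → 0 ≤ δ → δ < 2 * ε →
    ∃ A : NNReal, ∀ (f : SchwartzMap (EuclideanSpace ℝ (Fin 2)) ℂ)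
    (φ : EuclideanSpace ℝ (Fin 2) → ℝ),
    (∀ x, 0 ≤ φ x) → MeasureTheory.LocallyIntegrable φ MeasureTheory.volume →
    ∫⁻ x, ENNReal.ofReal
        (‖∫ ξ, (((max (1 - ‖ξ‖ ^ 2) 0) ^ ε : ℝ) : ℂ) *
            ((∫ y, Complex.exp (((-2 * Real.pi * @inner ℝ _ _ y ξ : ℝ) : ℂ) * Complex.I) * f y) *
              Complex.exp (((2 * Real.pi * @inner ℝ _ _ x ξ : ℝ) : ℂ) * Complex.I))‖ ^ 2 * φ x)
      ≤ (A : ENNReal) * ∫⁻ x, ENNReal.ofReal (‖f x‖ ^ 2) *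
        (if δ = 0 then
          ⨆ (ω : EuclideanSpace ℝ (Fin 2)) (_ : ‖ω‖ = 1) (r : ℝ) (_ : 0 < r),
            ENNReal.ofReal (2 / r ^ 2) *
              ∫⁻ s in Set.Ioc (0 : ℝ) r, ENNReal.ofReal (φ (x - s • ω) * s)
        else
          ⨆ (u : EuclideanSpace ℝ (Fin 2)) (_ : ‖u‖ = 1) (r : ℝ) (_ : 0 < r),
            ENNReal.ofReal (1 / r ^ 2) *
              ∫⁻ y in Metric.closedBall (0 : EuclideanSpace ℝ (Fin 2)) r,
                ENNReal.ofReal (δ * ‖(‖y‖⁻¹) • y - u‖ ^ (δ - 1) * φ (x - y))) := by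
  intro ε δ hε h0 hδ
  by_cases h : δ = 0
  · simp only [if_pos h]
    exact Pool.Agent.Lib.MP_8ec070_an.LH.main_MM hε
  · simp only [if_neg h]
    exact Pool.Agent.Lib.MP_8ec070_an.LH.main_MD hε (lt_of_le_of_ne h0 (Ne.symm h)) hδ

end Pool.Agent.Retired.MP_8ec070_an.LargeHolds
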